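import Pool.Agent.Lib_helper95.SHProof

open Pool.Agent.Lib_helper95.SH

namespace Pool.Agent.Results.MP_999952_gt.HomogeneousExample

/-- There is (in ZFC) a non-empty separable metrizable zero-dimensional space which is homogeneous, hence
sigma-homogeneous, but is not a countable union of strongly homogeneous subspaces. -/
theorem result : ∃ (X : Type) (_ : TopologicalSpace X),
    Nonempty X ∧ TopologicalSpace.SeparableSpace X ∧ TopologicalSpace.MetrizableSpace X ∧
      ZeroDimensional X ∧ Homogeneous X ∧ SigmaHomogeneous X ∧
      ¬ SigmaStronglyHomogeneous X := by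
  obtain ⟨X, hX⟩ := main
  exact ⟨X, inferInstance, ⟨0⟩, separableSpace_submodule X, metrizableSpace_submodule X,
    zeroDimensional_submodule X,
    homogeneous_submodule X, sigmaHomogeneous_of_homogeneous (homogeneous_submodule X), hX⟩

end Pool.Agent.Results.MP_999952_gt.HomogeneousExample
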